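import Pool.Agent.H88.CL.Basic

/-! Closing lemma on the torus: one step of the `N`-step perturbation. -/

set_option autoImplicit false

namespace Pool.Agent.H81.CL

open Pool.Agent.H88.CL Set Function Topology Metric Filter

/-- cancellation of a power -/
theorem canc {q a b : ℝ} (hq : 1 ≤ q) (m n : ℕ) (h : 50 * q ^ (m + n) * a ≤ q ^ m * b) :
    50 * q ^ n * a ≤ b := by
  have h0 : 0 < q ^ m := by positivity
  have h1 : q ^ m * (50 * q ^ n * a) ≤ q ^ m * b := by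
    calc q ^ m * (50 * q ^ n * a) = 50 * q ^ (m + n) * a := by rw [pow_add]; ring
      _ ≤ q ^ m * b := h
  exact le_of_mul_le_mul_left h1 h0

theorem pf_NSU (h1 : T_OBP) (h2 : T_NLN) (h3 : T_ITA) : T_NSU := by
  intro d hd
  obtain ⟨C₀, hC₀, hB⟩ := h1 d
  have hdR : (1 : ℝ) ≤ d := by exact_mod_cast hd
  refine ⟨2 * d * C₀, by nlinarith, ?_⟩
  intro L F F' hC N b p v z z' P T l hN hF hl hv hs hz hz' hzz hk
  have hNR : (1 : ℝ) ≤ N := by exact_mod_cast hN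
  have hN0 : (0 : ℝ) < N := by linarith
  have hL1 : 1 ≤ L := hC.one_le
  obtain ⟨D, hD⟩ : ∃ D : ℝ, D = ‖v‖ := ⟨_, rfl⟩
  obtain ⟨q, hq⟩ : ∃ q : ℝ, q = L ^ N := ⟨_, rfl⟩
  have hq1 : 1 ≤ q := by
    rw [hq]
    exact one_le_pow₀ hL1
  have hq0 : 0 < q := by linarith
  have hD0 : 0 < D := by
    rw [hD]
    exact norm_pos_iff.2 hv
  rw [← hq] at hF
  rw [← hD] at hs hz hz' hzz hk
  rw [← hD]
  have e3 : L ^ (3 * N) = q ^ 3 := by rw [hq, pow_mul']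
  have e4 : L ^ (4 * N) = q ^ 4 := by rw [hq, pow_mul']
  have e6 : L ^ (6 * N) = q ^ 6 := by rw [hq, pow_mul']
  rw [e3, ← hq]
  obtain ⟨A, hA⟩ : ∃ A : E d →L[ℝ] E d, A = fderiv ℝ F^[l] b := ⟨_, rfl⟩
  -- basic facts
  obtain ⟨i1, i2, i3, i4⟩ := h3 d L F F' hC l
  have hLl : L ^ l ≤ q := by
    rw [hq]
    exact pow_le_pow_right₀ hL1 hl.le
  have fA : ∀ x, ‖A x‖ ≤ q * ‖x‖ := by
    intro x
    refine (A.le_opNorm x).trans (mul_le_mul_of_nonneg_right ?_ (norm_nonneg x))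
    rw [hA]
    exact (i2 b).trans hLl
  have fP : ∀ x, ‖P x‖ ≤ q ^ 2 * ‖x‖ := hF.hi
  have fS : ∀ x, ‖P.symm x‖ ≤ ‖x‖ := by
    intro x
    have := hF.lo (P.symm x)
    rwa [ContinuousLinearEquiv.apply_symm_apply] at this
  have fi : ∀ x, T l (A (P x)) = x := by
    intro x
    rw [hA]
    exact hF.inv l hl x
  have fi' : ∀ x, A (P (T l x)) = x := by
    intro x
    rw [hA]
    exact hF.inv' l hl x
  have ft : ‖T l‖ ≤ q := hF.tb l hl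
  have ftx : ∀ x, ‖T l x‖ ≤ q * ‖x‖ := fun x =>
    ((T l).le_opNorm x).trans (mul_le_mul_of_nonneg_right ft (norm_nonneg x))
  have fAP : ∀ x, ‖A (P x)‖ ≤ q ^ 3 * ‖x‖ := by
    intro x
    calc ‖A (P x)‖ ≤ q * ‖P x‖ := fA _
      _ ≤ q * (q ^ 2 * ‖x‖) := mul_le_mul_of_nonneg_left (fP x) hq0.le
      _ = q ^ 3 * ‖x‖ := by ring
  have hk' : ‖T l‖ * ‖A (P (z' - z))‖ ≤ d / N * D := by
    rw [hA]
    exact hk
  have hq2 : 1 ≤ q ^ 2 := one_le_pow₀ hq1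
  have hq4 : 1 ≤ q ^ 4 := one_le_pow₀ hq1
  have hhalf : ‖(1 / 2 : ℝ) • v‖ = D / 2 := by
    rw [norm_smul, hD]
    norm_num
    ring
  have nz : ∀ x : E d, ‖x - (1 / 2 : ℝ) • v‖ ≤ D / 2 → ‖x‖ ≤ D := by
    intro x hx
    have h5 : x = (x - (1 / 2 : ℝ) • v) + (1 / 2 : ℝ) • v := by abel
    calc ‖x‖ = ‖(x - (1 / 2 : ℝ) • v) + (1 / 2 : ℝ) • v‖ := by rw [← h5]
      _ ≤ ‖x - (1 / 2 : ℝ) • v‖ + ‖(1 / 2 : ℝ) • v‖ := norm_add_le _ _
      _ ≤ D := by rw [hhalf]; linarith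
  have nP : ∀ x : E d, ‖x‖ ≤ D → ‖P x‖ ≤ q ^ 2 * D := fun x hx =>
    (fP x).trans (mul_le_mul_of_nonneg_left hx (by positivity))
  have h24 : q ^ 2 * D ≤ 2 * q ^ 4 * D := by
    have : q ^ 2 ≤ q ^ 4 := pow_le_pow_right₀ hq1 (by norm_num)
    nlinarith
  have nln : ∀ x y : E d, ‖x - p‖ ≤ 2 * q ^ 4 * D → ‖y - p‖ ≤ 2 * q ^ 4 * D →
      50 * q ^ 6 * ‖F^[l] x - F^[l] y - A (x - y)‖ ≤ ‖x - y‖ := by
    intro x y hx hy
    have h5 := h2 d L F F' hC N l b p x y D hl.le hD0.le hs (by rw [e4]; exact hx)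
      (by rw [e4]; exact hy)
    rw [e6, ← hA] at h5
    exact h5
  have hpp : ‖p - p‖ ≤ 2 * q ^ 4 * D := by
    rw [sub_self, norm_zero]
    positivity
  -- the points
  have hz0 := nz z hz
  have hz0' := nz z' hz'
  obtain ⟨ζ, hζ⟩ : ∃ ζ : E d, ζ = p + P z := ⟨_, rfl⟩
  obtain ⟨ζ', hζ'⟩ : ∃ ζ' : E d, ζ' = p + P z' := ⟨_, rfl⟩
  have hζp : ζ - p = P z := by rw [hζ]; abel
  have hζp' : ζ' - p = P z' := by rw [hζ']; abel
  have hζζ : ζ' - ζ = P (z' - z) := by rw [hζ, hζ', map_sub]; abel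
  have nζ : ‖ζ - p‖ ≤ 2 * q ^ 4 * D := by
    rw [hζp]
    exact (nP z hz0).trans h24
  have nζ' : ‖ζ' - p‖ ≤ 2 * q ^ 4 * D := by
    rw [hζp']
    exact (nP z' hz0').trans h24
  obtain ⟨w, hw⟩ : ∃ w : E d, w = F^[l] ζ' - F^[l] ζ := ⟨_, rfl⟩
  rw [← hζ, ← hζ', ← hw]
  -- the size of `w`
  have hdN : 0 ≤ (d : ℝ) / N * D := by positivity
  have we : 50 * q ^ 4 * ‖w - A (P (z' - z))‖ ≤ d / N * D := by
    refine canc hq1 2 4 ?_
    have h5 := nln ζ' ζ nζ' nζ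
    rw [← hw, hζζ] at h5
    calc 50 * q ^ (2 + 4) * ‖w - A (P (z' - z))‖ ≤ ‖P (z' - z)‖ := h5
      _ ≤ q ^ 2 * ‖z' - z‖ := fP _
      _ ≤ q ^ 2 * (d / N * D) := mul_le_mul_of_nonneg_left hzz (by positivity)
  have ke : ‖T l‖ * ‖w - A (P (z' - z))‖ ≤ d / N * D := by
    have h5 : q ≤ 50 * q ^ 4 := by
      have : q ^ 1 ≤ q ^ 4 := pow_le_pow_right₀ hq1 (by norm_num)
      rw [pow_one] at this
      nlinarith
    calc ‖T l‖ * ‖w - A (P (z' - z))‖ ≤ q * ‖w - A (P (z' - z))‖ :=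
          mul_le_mul_of_nonneg_right ft (norm_nonneg _)
      _ ≤ 50 * q ^ 4 * ‖w - A (P (z' - z))‖ := mul_le_mul_of_nonneg_right h5 (norm_nonneg _)
      _ ≤ d / N * D := we
  have kw : ‖T l‖ * ‖w‖ ≤ 2 * (d / N * D) := by
    have h5 : w = A (P (z' - z)) + (w - A (P (z' - z))) := by abel
    calc ‖T l‖ * ‖w‖ = ‖T l‖ * ‖A (P (z' - z)) + (w - A (P (z' - z)))‖ := by rw [← h5]
      _ ≤ ‖T l‖ * (‖A (P (z' - z))‖ + ‖w - A (P (z' - z))‖) :=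
          mul_le_mul_of_nonneg_left (norm_add_le _ _) (norm_nonneg _)
      _ ≤ 2 * (d / N * D) := by
          rw [mul_add]
          linarith
  have hwn : ‖w‖ ≤ 2 * (d / N * D) * q ^ 3 := by
    calc ‖w‖ = ‖A (P (T l w))‖ := by rw [fi']
      _ ≤ q ^ 3 * ‖T l w‖ := fAP _
      _ ≤ q ^ 3 * (‖T l‖ * ‖w‖) := mul_le_mul_of_nonneg_left ((T l).le_opNorm w) (by positivity)
      _ ≤ q ^ 3 * (2 * (d / N * D)) := mul_le_mul_of_nonneg_left kw (by positivity)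
      _ = 2 * (d / N * D) * q ^ 3 := by ring
  -- the bump
  obtain ⟨u, u1, u2, u3, u4, u5, u6⟩ := hB (T l) ‖T l‖ D (F^[l] p) ((1 / 2 : ℝ) • v) w le_rfl hD0
  refine ⟨u, u1, ?_, ?_, ?_, ?_, ?_⟩
  · intro y
    refine (u2 y).trans (hwn.trans ?_)
    have h5 : (d : ℝ) / N ≤ d := div_le_self (by linarith) hNR
    have h6 : 2 * ((d : ℝ) / N * D) * q ^ 3 ≤ 2 * (d * D) * q ^ 3 := by
      have h7 : 0 ≤ q ^ 3 := by positivity
      have h8 : (d : ℝ) / N * D ≤ d * D := mul_le_mul_of_nonneg_right h5 hD0.le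
      nlinarith
    refine h6.trans ?_
    have h9 : 0 ≤ 2 * (d * D) * q ^ 3 := by positivity
    calc 2 * ((d : ℝ) * D) * q ^ 3 = 2 * (d * D) * q ^ 3 * 1 := by ring
      _ ≤ 2 * (d * D) * q ^ 3 * C₀ := mul_le_mul_of_nonneg_left hC₀ h9
      _ = 2 * d * C₀ * q ^ 3 * D := by ring
  · intro y
    refine (u3 y).trans ?_
    calc C₀ * (‖T l‖ / D) * ‖w‖ = C₀ / D * (‖T l‖ * ‖w‖) := by ring
      _ ≤ C₀ / D * (2 * (d / N * D)) := mul_le_mul_of_nonneg_left kw (by positivity)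
      _ = 2 * d * C₀ / N := by field_simp
  · intro y y'
    refine (u4 y y').trans (mul_le_mul_of_nonneg_right ?_ (norm_nonneg _))
    calc C₀ * (‖T l‖ / D) ^ 2 * ‖w‖ = C₀ / D ^ 2 * (‖T l‖ * (‖T l‖ * ‖w‖)) := by ring
      _ ≤ C₀ / D ^ 2 * (q * (2 * (d / N * D))) :=
          mul_le_mul_of_nonneg_left (mul_le_mul ft kw (by positivity) hq0.le) (by positivity)
      _ = 2 * d * C₀ * q / (N * D) := by field_simp
  · refine u5 _ ?_
    have h5 := nln ζ p nζ hpp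
    rw [hζp] at h5
    obtain ⟨e', he'⟩ : ∃ e' : E d, e' = F^[l] ζ - F^[l] p - A (P z) := ⟨_, rfl⟩
    rw [← he'] at h5
    have h6 : 50 * q ^ 4 * ‖e'‖ ≤ D := by
      refine canc hq1 2 4 ?_
      calc 50 * q ^ (2 + 4) * ‖e'‖ ≤ ‖P z‖ := h5
        _ ≤ q ^ 2 * D := nP z hz0
    have h7 : ‖T l e'‖ ≤ D / 50 := by
      have h8 : q ^ 1 ≤ q ^ 4 := pow_le_pow_right₀ hq1 (by norm_num)
      rw [pow_one] at h8
      have h9 : q * ‖e'‖ ≤ q ^ 4 * ‖e'‖ := mul_le_mul_of_nonneg_right h8 (norm_nonneg _)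
      have h10 := ftx e'
      linarith
    have h11 : T l (F^[l] ζ - F^[l] p) - (1 / 2 : ℝ) • v = (z - (1 / 2 : ℝ) • v) + T l e' := by
      have h12 : F^[l] ζ - F^[l] p = A (P z) + e' := by rw [he']; abel
      rw [h12, map_add, fi]
      abel
    rw [h11]
    have h13 := norm_add_le (z - (1 / 2 : ℝ) • v) (T l e')
    linarith
  · intro y hy
    have h5 := u6 y hy
    refine ⟨F'^[l] y, ?_, (iter_ri hC.toIsLift l y).symm⟩
    obtain ⟨x, hx⟩ : ∃ x : E d, x = F'^[l] y := ⟨_, rfl⟩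
    have hxy : F^[l] x = y := by rw [hx]; exact iter_ri hC.toIsLift l y
    rw [← hx]
    have h6 : ‖T l (y - F^[l] p)‖ ≤ 6 / 5 * D := by
      have h7 : T l (y - F^[l] p) = (T l (y - F^[l] p) - (1 / 2 : ℝ) • v) + (1 / 2 : ℝ) • v := by
        abel
      rw [h7]
      refine (norm_add_le _ _).trans ?_
      rw [hhalf]
      linarith
    have h8 : ‖y - F^[l] p‖ ≤ q ^ 3 * (6 / 5 * D) := by
      calc ‖y - F^[l] p‖ = ‖A (P (T l (y - F^[l] p)))‖ := by rw [fi']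
        _ ≤ q ^ 3 * ‖T l (y - F^[l] p)‖ := fAP _
        _ ≤ q ^ 3 * (6 / 5 * D) := mul_le_mul_of_nonneg_left h6 (by positivity)
    have h9 : ‖x - p‖ ≤ 6 / 5 * q ^ 4 * D := by
      calc ‖x - p‖ ≤ L ^ l * ‖F^[l] x - F^[l] p‖ := i4 x p
        _ ≤ q * (q ^ 3 * (6 / 5 * D)) := by
            rw [hxy]
            exact mul_le_mul hLl h8 (norm_nonneg _) hq0.le
        _ = 6 / 5 * q ^ 4 * D := by ring
    have h10 : ‖x - p‖ ≤ 2 * q ^ 4 * D := by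
      refine h9.trans ?_
      have h11 : 0 ≤ q ^ 4 * D := by positivity
      nlinarith
    have h12 := nln x p h10 hpp
    rw [hxy] at h12
    obtain ⟨e', he'⟩ : ∃ e' : E d, e' = y - F^[l] p - A (x - p) := ⟨_, rfl⟩
    rw [← he'] at h12
    have h13 : 50 * q ^ 2 * ‖e'‖ ≤ 6 / 5 * D := by
      refine canc hq1 4 2 ?_
      calc 50 * q ^ (4 + 2) * ‖e'‖ ≤ ‖x - p‖ := h12
        _ ≤ 6 / 5 * q ^ 4 * D := h9
        _ = q ^ 4 * (6 / 5 * D) := by ring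
    have h14 : ‖T l e'‖ ≤ 3 / 125 * D := by
      have h15 : q ^ 1 ≤ q ^ 2 := pow_le_pow_right₀ hq1 (by norm_num)
      rw [pow_one] at h15
      have h16 : q * ‖e'‖ ≤ q ^ 2 * ‖e'‖ := mul_le_mul_of_nonneg_right h15 (norm_nonneg _)
      have h17 := ftx e'
      linarith
    have h18 : P.symm (x - p) - (1 / 2 : ℝ) • v =
        (T l (y - F^[l] p) - (1 / 2 : ℝ) • v) - T l e' := by
      have h19 : y - F^[l] p = A (P (P.symm (x - p))) + e' := by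
        rw [ContinuousLinearEquiv.apply_symm_apply, he']
        abel
      rw [h19, map_add, fi]
      abel
    rw [h18]
    have h20 := norm_sub_le (T l (y - F^[l] p) - (1 / 2 : ℝ) • v) (T l e')
    linarith

end Pool.Agent.H81.CL
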